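import Pool.Agent.R307.Mono

set_option autoImplicit false

/-!
# MP_fcf965_nt, Q1: the maxima of the derivatives of zeta on `Re s = 1` increase with the order

There is `T₀` such that for all `T ≥ T₀` and all `1 ≤ ℓ₁ < ℓ₂ ≤ log T / log log T` one has
`M_{ℓ₁}(T) < M_{ℓ₂}(T)`.

It is enough to compare consecutive orders `ℓ`, `ℓ + 1`.  Let the maximum `M = M_ℓ(T)` be attained
at `t₀` and suppose `M_{ℓ+1}(T) ≤ M`.

* In a quarter plane with corner `1 + i t₀` (turned so that its vertical side of length `T/2` stays in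
  the segment) the derivative `ζ^(ℓ+1)` is at most `M` on the vertical side and at most
  `K x^(-m)`, `m = ℓ + 2`, at distance `x` to the right of it.  If `M ≥ 2 K q^m`, the maximum
  principle for `ζ^(ℓ+1) exp(m (A + i A²/π))`, `A = log (q z)`, shows that `ζ^(ℓ+1)` decays
  exponentially, with a rate proportional to `m log (q ρ)`, along the line at height `ρ` above the
  corner.  Integrating, `M = |ζ^(ℓ)(1 + i t₀)|` is less than `M`, a contradiction.
* The lower bound `M ≥ 2 K q^m` holds for large `ℓ`, with `q = 5/4`, by transferring the maximum to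
  `Re s = 5/4` with the maximum principle and a mean value with a parabolic weight and the resonator
  `∑_{N < n ≤ 2N} n^{it}`, `N = 4^ℓ`; for each fixed `ℓ` it holds with any `q` for large `T`, since
  `M_ℓ(T)` tends to infinity (almost periodicity to the right of the line).
-/

namespace Pool.Agent.Results.MP_fcf965_nt.StrictMonotonicity

open Complex Set Pool.Agent.R307

/-- `M ℓ T` is the maximum over `T ≤ t ≤ 2T` of the absolute value of the `ℓ`-th derivative of the
Riemann zeta function at `1 + it` (written as a supremum, which is attained, see `M_isGreatest`). -/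
noncomputable def M (ℓ : ℕ) (T : ℝ) : ℝ :=
  sSup ((fun t : ℝ => ‖iteratedDeriv ℓ riemannZeta (1 + t * I)‖) '' Icc T (2 * T))

lemma pt_eq (t : ℝ) : (1 : ℂ) + t * I = ⟨1, t⟩ := by
  apply Complex.ext <;> simp

lemma M_eq (ℓ : ℕ) (T : ℝ) : M ℓ T = MM ℓ 1 T := by
  unfold M MM zd
  simp only [pt_eq]

/-- For `T > 0` the supremum is a maximum. -/
theorem M_isGreatest (ℓ : ℕ) (T : ℝ) (hT : 0 < T) :
    IsGreatest ((fun t : ℝ => ‖iteratedDeriv ℓ riemannZeta (1 + t * I)‖) '' Icc T (2 * T))
      (M ℓ T) := by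
  have hc : ContinuousOn (fun t : ℝ => ‖iteratedDeriv ℓ riemannZeta (1 + t * I)‖)
      (Icc T (2 * T)) := by
    intro t ht
    have h1 := (vert_cont ℓ 1 (by linarith [ht.1] : (0:ℝ) < t).ne').norm.continuousWithinAt
      (s := Icc T (2 * T))
    simp only [pt_eq]
    exact h1
  exact (isCompact_Icc.image_of_continuousOn hc).isGreatest_sSup
    ((nonempty_Icc.2 (by linarith)).image _)

/-- **Q1.**  The maxima on the line `Re s = 1` are strictly increasing in the order of the derivative
in the range `1 ≤ ℓ ≤ log T / log log T`, for all large `T`. -/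
theorem result : ∃ T₀ : ℝ, ∀ T : ℝ, T₀ ≤ T → ∀ ℓ₁ ℓ₂ : ℕ, 1 ≤ ℓ₁ → ℓ₁ < ℓ₂ →
    (ℓ₂ : ℝ) ≤ Real.log T / Real.log (Real.log T) → M ℓ₁ T < M ℓ₂ T := by
  obtain ⟨T₀, h⟩ := step_all
  refine ⟨T₀, fun T hT ℓ₁ ℓ₂ h1 h12 h2 => ?_⟩
  simp only [M_eq]
  have key : ∀ n : ℕ, ℓ₁ + 1 ≤ n → (n : ℝ) ≤ Real.log T / Real.log (Real.log T) →
      MM ℓ₁ 1 T < MM n 1 T := by
    intro n hn
    induction n, hn using Nat.le_induction with
    | base =>
      intro hb
      refine h T hT ℓ₁ h1 (le_trans ?_ hb)
      push_cast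
      linarith
    | succ n hn ih =>
      intro hb
      have hb' : (n : ℝ) ≤ Real.log T / Real.log (Real.log T) := by
        refine le_trans ?_ hb
        push_cast
        linarith
      exact (ih hb').trans (h T hT n (by omega) hb')
  exact key ℓ₂ h12 h2

end Pool.Agent.Results.MP_fcf965_nt.StrictMonotonicity
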